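import Pool.Agent.H518R3.RD.Defs

set_option autoImplicit false

open scoped ComplexOrder InnerProductSpace Topology
open Filter

noncomputable section

namespace Pool.Agent.H518R3.RD.T_AMU

open H759R2.Kad H710R2.DP H917R2.Tr Pool.Agent.H735G Pool.Agent.H467F Pool.Agent.H518R3.RD

/-- the almost matrix units -/
def VV {H : Type} [NormedAddCommGroup H] [InnerProductSpace ℂ H] [CompleteSpace H]
    (z2 v : H →L[ℂ] H) (W : ℕ → (H →L[ℂ] H)) : ℕ → (H →L[ℂ] H)
  | 0 => z2 * star v
  | i + 1 => z2 * W i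

theorem r_AMU (hspan : V_span) (hcomp : V_comp) : R_AMU := by
  intro H _ _ _ M z r W hz hr hr0 hW hort hmax
  obtain ⟨⟨hzs, hzz⟩, hzM, hzc⟩ := hz
  obtain ⟨hrs, hrr⟩ := hr
  have hsM : ∀ x, x ∈ M → star x ∈ M := fun x hx => star_mem hx
  obtain ⟨f, hfM, ⟨hfs, hff⟩, hfW, hfy⟩ := hspan H M (Set.range W)
    (by rintro _ ⟨i, rfl⟩; exact (hW i).1)
  have hfW' : ∀ i, f * W i = W i := fun i => hfW _ ⟨i, rfl⟩
  have hzf : z * f = f := by
    have h1 : (1 - z) * f = 0 := by
      apply hfy
      rintro _ ⟨i, rfl⟩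
      rw [sub_mul, one_mul, (hW i).2.1, sub_self]
    rw [sub_mul, one_mul, sub_eq_zero] at h1
    exact h1.symm
  have hfz : f * z = f := by
    have := congrArg star hzf
    rw [star_mul, hzs, hfs] at this
    exact this
  obtain ⟨s, hs⟩ : ∃ s, s = z - f := ⟨_, rfl⟩
  have hss : star s = s := by rw [hs, star_sub, hzs, hfs]
  have hsq : s * s = s := by
    rw [hs, mul_sub, sub_mul, sub_mul, hzz, hfz, hzf, hff]
    abel
  have hsM' : s ∈ M := by rw [hs]; exact sub_mem hzM hfM
  have hzs' : z * s = s := by rw [hs, mul_sub, hzz, hzf]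
  have hsW : ∀ i, s * W i = 0 := fun i => by rw [hs, sub_mul, (hW i).2.1, hfW', sub_self]
  have hWs : ∀ i, star (W i) * s = 0 := fun i => by
    have := congrArg star (hsW i)
    rw [star_mul, hss, star_zero] at this
    exact this
  have hrM : r ∈ M := by
    rw [← (hW 0).2.2]
    exact mul_mem (hsM _ (hW 0).1) (hW 0).1
  have hWr : ∀ i, W i * r = W i := by
    intro i
    have h1 : star (W i * r - W i) * (W i * r - W i) = 0 := by
      rw [star_sub, star_mul, hrs, sub_mul, mul_sub, mul_sub]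
      have e1 : r * star (W i) * (W i * r) = r := by
        rw [mul_assoc, ← mul_assoc (star (W i)), (hW i).2.2, hrr, hrr]
      have e2 : r * star (W i) * W i = r := by rw [mul_assoc, (hW i).2.2, hrr]
      have e3 : star (W i) * (W i * r) = r := by rw [← mul_assoc, (hW i).2.2, hrr]
      rw [e1, e2, e3, (hW i).2.2]
      abel
    exact sub_eq_zero.1 (CStarRing.star_mul_self_eq_zero_iff _ |>.1 h1)
  obtain ⟨v, hvM, hvPI, hvs, hrv, z1, ⟨⟨h1s, h1z⟩, h1M, h1c⟩, hA, hB⟩ :=
    hcomp H M s hsM' r hrM ⟨hss, hsq⟩ ⟨hrs, hrr⟩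
  have hvsM := hsM v hvM
  have hsv : s * star v = star v := by
    have := congrArg star hvs
    rw [star_mul, hss] at this
    exact this
  have hvr : star v * r = star v := by
    have := congrArg star hrv
    rw [star_mul, hrs] at this
    exact this
  have hzv : z * star v = star v := by
    rw [← hsv, ← mul_assoc, hzs']
  have hzr : z * r = r := by
    rw [← (hW 0).2.2, ← mul_assoc, hzc _ (hsM _ (hW 0).1), mul_assoc, (hW 0).2.1]
  obtain ⟨z2, hz2⟩ : ∃ z2 : H →L[ℂ] H, z2 = 1 - z1 := ⟨_, rfl⟩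
  have h2s : star z2 = z2 := by rw [hz2, star_sub, star_one, h1s]
  have h2z : z2 * z2 = z2 := by
    rw [hz2, mul_sub, mul_one, sub_mul, one_mul, h1z, sub_self, sub_zero]
  have h2M : z2 ∈ M := by rw [hz2]; exact sub_mem (one_mem M) h1M
  have h2c : ∀ a ∈ M, z2 * a = a * z2 := fun a ha => by
    rw [hz2, sub_mul, mul_sub, one_mul, mul_one, h1c a ha]
  have hB' : z2 * s = z2 * (star v * v) := by
    rw [← hz2, mul_sub, sub_eq_zero] at hB
    exact hB
  -- `z2 r ≠ 0`
  have h2r : z2 * r ≠ 0 := by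
    intro h0
    have h1r : z1 * r = r := by
      rw [hz2, sub_mul, one_mul, sub_eq_zero] at h0
      exact h0.symm
    obtain ⟨i, hi⟩ := hmax (z1 * star v) (mul_mem h1M hvsM)
      (by rw [← mul_assoc, hzc z1 h1M, mul_assoc, hzv])
      (by
        rw [star_mul, star_star, h1s, mul_assoc, ← mul_assoc z1 z1, h1z, ← mul_assoc,
          ← h1c v hvM, mul_assoc]
        rw [mul_sub, sub_eq_zero] at hA
        rw [← hA, h1r])
    apply hi
    rw [← mul_assoc, ← h1c _ (hsM _ (hW i).1), ← hsv, mul_assoc, ← mul_assoc (star (W i)), hWs,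
      zero_mul, mul_zero]
  have hz2z : z2 * z = z * z2 := h2c z hzM
  refine ⟨z2 * z, z2 * r, VV z2 v W, ⟨⟨?_, ?_⟩, mul_mem h2M hzM, ?_⟩, ?_, ?_, ?_⟩
  · rw [star_mul, hzs, h2s, ← hz2z]
  · rw [mul_assoc, ← mul_assoc z, ← hz2z, mul_assoc z2 z z, hzz, ← mul_assoc, h2z]
  · intro a ha
    rw [mul_assoc, hzc a ha, ← mul_assoc, h2c a ha, mul_assoc]
  · intro h0
    apply h2r
    rw [← hzr, ← mul_assoc, h0, zero_mul]
  · rw [← mul_assoc, ← hz2z, mul_assoc, hzz]
  have hV0 : VV z2 v W 0 = z2 * star v := rfl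
  have hVs : ∀ i, VV z2 v W (i + 1) = z2 * W i := fun _ => rfl
  have s0 : star (z2 * star v) = z2 * v := by rw [star_mul, star_star, h2s, h2c v hvM]
  have s1 : ∀ i, star (z2 * W i) = z2 * star (W i) := fun i => by
    rw [star_mul, h2s, h2c _ (hsM _ (hW i).1)]
  have hmul : ∀ a b : H →L[ℂ] H, a ∈ M → (z2 * a) * (z2 * b) = z2 * (a * b) := by
    intro a b ha
    rw [mul_assoc, ← mul_assoc a, ← h2c a ha, mul_assoc z2 a b, ← mul_assoc z2 z2, h2z]
  have o1 : ∀ j, (z2 * v) * (z2 * W j) = 0 := by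
    intro j
    rw [hmul v _ hvM, ← hvs, mul_assoc v, hsW, mul_zero, mul_zero]
  constructor
  · exact ⟨by rw [star_mul, hrs, h2s, h2c r hrM], by rw [hmul r r hrM, hrr]⟩
  · intro i
    cases i with
    | zero => rw [hV0]; exact mul_mem h2M hvsM
    | succ i => rw [hVs]; exact mul_mem h2M (hW i).1
  · intro i
    unfold IsPI
    cases i with
    | zero =>
      rw [hV0, s0, hmul _ _ hvsM, hmul _ _ (mul_mem hvsM hvM)]
      have : star v * v * star v = star v := by
        have h1 := congrArg star hvPI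
        rw [star_mul, star_mul, star_star, ← mul_assoc] at h1
        exact h1
      rw [this]
    | succ i =>
      rw [hVs, s1, hmul _ _ (hW i).1, hmul _ _ (mul_mem (hW i).1 (hsM _ (hW i).1)), mul_assoc (W i),
        (hW i).2.2, hWr]
  · intro i j hij
    cases i with
    | zero =>
      cases j with
      | zero => exact absurd rfl hij
      | succ j => rw [hV0, hVs, s0, o1]
    | succ i =>
      cases j with
      | zero =>
        rw [hV0, hVs]
        have h1 := congrArg star (o1 i)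
        rw [star_mul, star_zero] at h1
        rw [← s0, star_star] at h1
        exact h1
      | succ j =>
        rw [hVs, hVs, s1, hmul _ _ (hsM _ (hW i).1), hort i j (fun h => hij (by rw [h])), mul_zero]
  · intro i
    rw [hVs, s1, hmul _ _ (hsM _ (hW i).1), (hW i).2.2]
  · rw [hV0, hmul _ _ hvsM, hvr]
  · intro i
    cases i with
    | zero => rw [hV0, hmul _ _ hzM, hzv]
    | succ i => rw [hVs, hmul _ _ hzM, (hW i).2.1]
  · intro y hy
    have h1 : y * z2 * f = 0 := by
      apply hfy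
      rintro _ ⟨i, rfl⟩
      have := hy (i + 1)
      rw [hVs] at this
      rw [mul_assoc, this]
    have h2 : y * z2 * s = 0 := by
      have := hy 0
      rw [hV0] at this
      rw [mul_assoc, hB', ← mul_assoc z2, ← mul_assoc, this, zero_mul]
    have h3 : z = s + f := by rw [hs]; abel
    rw [← mul_assoc]
    nth_rewrite 1 [h3]
    rw [mul_add, h1, h2, add_zero]

end Pool.Agent.H518R3.RD.T_AMU
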